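import Pool.Agent.SCT.StmtsC
import Pool.Agent.Helper64_CUB.Red
import Pool.Agent.Helper64_CUB.Val

/-!
# Assembly (MP_02d4f5_ag, squad SCT)
-/

set_option autoImplicit false

namespace Pool.Agent.SCT.H79

open MvPolynomial Pool.Agent.CUB

/-- the class: through the generic point `T` passes a line that meets the cubic hypersurface in a point
`x` with coordinates in `E(T)` and in two other different points of dimensions at most `a`, `b`, `a + b = n` -/
def Cls (E : Type) [Field E] (n : ℕ) (f : MvPolynomial (Fin (n + 2)) E) : Prop :=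
  ∃ (x : Fin (n + 2) → FT E n) (u v : Cl E n) (a b : ℕ), x ≠ 0 ∧ aeval x f = 0 ∧ u ≠ v ∧
    a + b = n ∧ aeval (pt E n x u) f = 0 ∧ aeval (pt E n x v) f = 0 ∧
    DimLe E (pt E n x u) a ∧ DimLe E (pt E n x v) b

theorem sec_of (exp : ExpStmt) {E : Type} [Field E] {n a b : ℕ} {f : MvPolynomial (Fin (n + 2)) E}
    (h3 : f.IsHomogeneous 3) {x : Fin (n + 2) → FT E n} {u v : Cl E n} (hx : x ≠ 0)
    (h0 : aeval x f = 0) (huv : u ≠ v) (hu : aeval (pt E n x u) f = 0)
    (hv : aeval (pt E n x v) f = 0) (hda : DimLe E (pt E n x u) a)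
    (hdb : DimLe E (pt E n x v) b) : Sec E n a b f x u v := by
  have haev : ∀ y : Fin (n + 2) → FT E n, ∀ g : MvPolynomial (Fin (n + 2)) E,
      aeval (fun i => algebraMap (FT E n) (Cl E n) (y i)) g =
        algebraMap (FT E n) (Cl E n) (aeval y g) := by
    intro y g
    exact aeval_algebraMap_apply (Cl E n) y g
  have hdd : ∀ y z : Fin (n + 2) → FT E n,
      dd f (fun i => algebraMap (FT E n) (Cl E n) (y i))
        (fun i => algebraMap (FT E n) (Cl E n) (z i)) =
        algebraMap (FT E n) (Cl E n) (dd f y z) := by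
    intro y z
    unfold dd
    rw [map_sum]
    apply Finset.sum_congr rfl
    intro i _
    rw [map_mul, haev]
  have hexp : ∀ s : Cl E n, aeval (pt E n x s) f =
      algebraMap (FT E n) (Cl E n) (aeval (gen E n) f) +
      s * algebraMap (FT E n) (Cl E n) (dd f (gen E n) x) +
      s ^ 2 * algebraMap (FT E n) (Cl E n) (dd f x (gen E n)) := by
    intro s
    have h := (exp E (Cl E n) (Fin (n + 2)) f h3
      (fun i => algebraMap (FT E n) (Cl E n) (gen E n i))
      (fun i => algebraMap (FT E n) (Cl E n) (x i)) s).1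
    rw [haev, haev, hdd, hdd, h0, map_zero, mul_zero, add_zero] at h
    exact h
  rw [hexp] at hu hv
  have hne : u - v ≠ 0 := sub_ne_zero.2 huv
  have h1 : algebraMap (FT E n) (Cl E n) (dd f (gen E n) x) =
      -algebraMap (FT E n) (Cl E n) (dd f x (gen E n)) * (u + v) := by
    apply mul_left_cancel₀ hne
    linear_combination hu - hv
  have h2 : algebraMap (FT E n) (Cl E n) (aeval (gen E n) f) =
      algebraMap (FT E n) (Cl E n) (dd f x (gen E n)) * (u * v) := by
    rw [h1] at hu
    linear_combination hu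
  exact ⟨hx, h0, h1, h2, hda, hdb⟩

/-- the main theorem, from the rows -/
theorem asm (exp : ExpStmt) (p2 : P2Stmt) (spc : SpcStmt) (rat : RatStmt)
    (R : Type) [CommRing R] [IsDomain R] [ValuationRing R] (K : Type) [Field K]
    [Algebra R K] [IsFractionRing R K] (n : ℕ) (f : MvPolynomial (Fin (n + 2)) R)
    (h3 : f.IsHomogeneous 3)
    (hs : Nonsing (AlgebraicClosure (IsLocalRing.ResidueField R)) n
      (map ((algebraMap (IsLocalRing.ResidueField R)
        (AlgebraicClosure (IsLocalRing.ResidueField R))).comp (IsLocalRing.residue R)) f))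
    (hK : Cls (AlgebraicClosure K) n
      (map ((algebraMap K (AlgebraicClosure K)).comp (algebraMap R K)) f)) :
    Nonsing (AlgebraicClosure K) n
        (map ((algebraMap K (AlgebraicClosure K)).comp (algebraMap R K)) f) ∧
      IsRat (AlgebraicClosure K) n
        (map ((algebraMap K (AlgebraicClosure K)).comp (algebraMap R K)) f) ∧
      IsRat (AlgebraicClosure (IsLocalRing.ResidueField R)) n
        (map ((algebraMap (IsLocalRing.ResidueField R)
          (AlgebraicClosure (IsLocalRing.ResidueField R))).comp (IsLocalRing.residue R)) f) := by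
  have hRE : (algebraMap K (AlgebraicClosure K)).comp (algebraMap R K) =
      algebraMap R (AlgebraicClosure K) :=
    (IsScalarTower.algebraMap_eq R K (AlgebraicClosure K)).symm
  have hinj : Function.Injective (algebraMap R (AlgebraicClosure K)) := by
    rw [← hRE]
    exact (algebraMap K (AlgebraicClosure K)).injective.comp (IsFractionRing.injective R K)
  have halg : ∀ x : AlgebraicClosure K, IsAlgebraic R x := fun x =>
    (IsFractionRing.isAlgebraic_iff R K (AlgebraicClosure K)).2
      (Algebra.IsAlgebraic.isAlgebraic x)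
  obtain ⟨V, φ, π, hφ, hπ, hu, hπφ⟩ := H64.val_thm R (AlgebraicClosure K) hinj halg
  have hgen : map ((algebraMap K (AlgebraicClosure K)).comp (algebraMap R K)) f =
      map V.subtype (map φ f) := by
    rw [map_map, hRE]
    congr 1
    congr 1
    ext r
    exact (hφ r).symm
  have hsp : map ((algebraMap (IsLocalRing.ResidueField R)
      (AlgebraicClosure (IsLocalRing.ResidueField R))).comp (IsLocalRing.residue R)) f =
      map π (map φ f) := by
    rw [map_map, hπφ]
  rw [hgen] at hK ⊢
  rw [hsp] at hs ⊢
  have h3V : (map φ f).IsHomogeneous 3 := h3.map φ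
  have h3E := h3V.map V.subtype
  have hsm : Nonsing (AlgebraicClosure K) n (map V.subtype (map φ f)) :=
    H64.smooth_gen h3V π hs
  obtain ⟨x, u, v, a, b, hx, h0, huv, hab, hfu, hfv, hda, hdb⟩ := hK
  have hsec := sec_of exp h3E hx h0 huv hfu hfv hda hdb
  refine ⟨hsm, ?_, ?_⟩
  · exact rat _ n a b _ x u v hab h3E hsm hsec
      (fun c => p2 _ n a b _ x u v c hab h3E hsm.ne_zero hsec huv)
  · obtain ⟨x', u', v', hsec', hd⟩ := spc _ _ V π n a b (map φ f) x u v hπ hu hab h3V hs hsec huv
    exact rat _ n a b _ x' u' v' hab (h3V.map π) hs hsec' hd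

end Pool.Agent.SCT.H79
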