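import Pool.Agent.SCT.StmtsC

/-!
# Row EXP: a cubic form on a line
-/

set_option autoImplicit false

namespace Pool.Agent.SCT.H79

open MvPolynomial

section

variable {k Ω ι : Type} [Field k] [Field Ω] [Algebra k Ω] [Fintype ι]

theorem dd_zero' (a b : ι → Ω) : dd (0 : MvPolynomial ι k) a b = 0 := by
  simp only [dd, map_zero, mul_zero, Finset.sum_const_zero]

theorem dd_add' (f g : MvPolynomial ι k) (a b : ι → Ω) : dd (f + g) a b = dd f a b + dd g a b := by
  simp only [dd, map_add, mul_add, Finset.sum_add_distrib]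

theorem dd_mul' (f g : MvPolynomial ι k) (a b : ι → Ω) :
    dd (f * g) a b = aeval a f * dd g a b + aeval a g * dd f a b := by
  simp only [dd, pderiv_mul, map_add, map_mul, Finset.mul_sum]
  rw [← Finset.sum_add_distrib]
  exact Finset.sum_congr rfl fun i _ => by ring

theorem dd_C' (c : k) (a b : ι → Ω) : dd (C c : MvPolynomial ι k) a b = 0 := by
  simp only [dd, pderiv_C, map_zero, mul_zero, Finset.sum_const_zero]

theorem dd_X' (i : ι) (a b : ι → Ω) : dd (X i : MvPolynomial ι k) a b = b i := by
  classical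
  simp only [dd, pderiv_X]
  rw [Finset.sum_eq_single i]
  · rw [Pi.single_eq_same, map_one, mul_one]
  · intro j _ hj
    rw [Pi.single_eq_of_ne hj.symm, map_zero, mul_zero]
  · intro h
    exact absurd (Finset.mem_univ _) h

omit [Fintype ι] in
theorem mono_three (d : ι →₀ ℕ) (hd : d.degree = 3) :
    ∃ i j l : ι, ∀ c : k, monomial d c = C c * (X i * (X j * X l)) := by
  classical
  have h1 : (Finsupp.toMultiset d).card = 3 := by
    rw [Finsupp.card_toMultiset]
    exact hd
  obtain ⟨i, j, l, h2⟩ := Multiset.card_eq_three.1 h1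
  refine ⟨i, j, l, fun c => ?_⟩
  have h3 : d = Finsupp.single i 1 + (Finsupp.single j 1 + Finsupp.single l 1) := by
    refine (Multiset.toFinsupp (α := ι)).symm.injective (?_ : Finsupp.toMultiset d = Finsupp.toMultiset _)
    rw [h2, map_add, map_add, Finsupp.toMultiset_single, Finsupp.toMultiset_single,
      Finsupp.toMultiset_single, one_nsmul, one_nsmul, one_nsmul]
    rfl
  rw [h3, X, X, X, monomial_mul, monomial_mul, C_mul_monomial, mul_one, mul_one, mul_one]

theorem three_ind (P : MvPolynomial ι k → Prop) (h0 : P 0) (hadd : ∀ f g, P f → P g → P (f + g))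
    (hm : ∀ c i j l, P (C c * (X i * (X j * X l)))) (f : MvPolynomial ι k) (hf : f.IsHomogeneous 3) :
    P f := by
  classical
  rw [f.as_sum]
  have h1 : ∀ s : Finset (ι →₀ ℕ), (∀ d ∈ s, d ∈ f.support) →
      P (∑ d ∈ s, monomial d (coeff d f)) := by
    intro s
    induction s using Finset.induction_on with
    | empty =>
      intro _
      rw [Finset.sum_empty]
      exact h0
    | insert d s hd ih =>
      intro h
      rw [Finset.sum_insert hd]
      refine hadd _ _ ?_ (ih fun e he => h e (Finset.mem_insert_of_mem he))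
      have h2 : d.degree = 3 := by
        have h3 := hf (mem_support_iff.1 (h d (Finset.mem_insert_self _ _)))
        rw [← h3]
        rw [Finsupp.degree_eq_weight_one]
        rfl
      obtain ⟨i, j, l, h4⟩ := mono_three (k := k) d h2
      rw [h4]
      exact hm _ _ _ _
  exact h1 f.support fun d hd => hd

end

theorem exp : ExpStmt := by
  intro k Ω ι _ _ _ _ f hf a b u
  refine three_ind (fun f => aeval (fun i => a i + u * b i) f =
        aeval a f + u * dd f a b + u ^ 2 * dd f b a + u ^ 3 * aeval b f ∧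
      dd f (fun i => a i + u * b i) b = dd f a b + 2 * u * dd f b a + 3 * u ^ 2 * aeval b f ∧
      dd f a a = 3 * aeval a f ∧ aeval (fun i => u * a i) f = u ^ 3 * aeval a f ∧
      dd f (fun i => u * a i) b = u ^ 2 * dd f a b) ?_ ?_ ?_ f hf
  · refine ⟨?_, ?_, ?_, ?_, ?_⟩ <;> simp only [map_zero, dd_zero'] <;> ring
  · rintro f g ⟨h1, h2, h3, h4, h5⟩ ⟨g1, g2, g3, g4, g5⟩
    refine ⟨?_, ?_, ?_, ?_, ?_⟩
    · rw [map_add, h1, g1, dd_add', dd_add', map_add, map_add]
      ring
    · rw [dd_add', h2, g2, dd_add', dd_add', map_add]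
      ring
    · rw [dd_add', h3, g3, map_add]
      ring
    · rw [map_add, h4, g4, map_add]
      ring
    · rw [dd_add', h5, g5, dd_add']
      ring
  · intro c i j l
    refine ⟨?_, ?_, ?_, ?_, ?_⟩ <;>
      simp only [map_mul, aeval_C, aeval_X, dd_mul', dd_C', dd_X'] <;> ring

end Pool.Agent.SCT.H79
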