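import Pool.Agent.Helper79_SCT.TWO
import Pool.Agent.Helper79_SCT.SPD
import Pool.Agent.Helper21_SCT.ANI
import Pool.Agent.Helper27_SCT.IND
import Pool.Agent.Helper26_SCT.DES
import Pool.Agent.Helper22_SCT.TAY
import Pool.Agent.Helper25_SCT.JAC
import Pool.Agent.Helper86_SCT.PTN
import Pool.Agent.Helper42_SCT.RNK
import Pool.Agent.Helper31_SCT.MAT
import Pool.Agent.Helper58_SCT.TRD
import Pool.Agent.Helper22_SCT.COP
import Pool.Agent.Helper95_SCT.AIN
import Pool.Agent.Helper21_SCT.FLA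
import Pool.Agent.Helper92_SCT.FLB
import Pool.Agent.Helper81_SCT.FLD
import Pool.Agent.Helper3_SCT.SUP
import Pool.Agent.Helper58_SCT.P2
import Pool.Agent.Helper17_SCT.TRR
import Pool.Agent.Helper60_SCT.SPP
import Pool.Agent.Helper44_SCT.SCL
import Pool.Agent.Helper45_SCT.PTS
import Pool.Agent.Helper13_SCT.RAT
import Pool.Agent.Helper57_SCT.ODS

/-!
# The rows together (MP_02d4f5_ag, squad SCT)
-/

set_option autoImplicit false

namespace Pool.Agent.SCT.H79

open MvPolynomial

theorem ani_all : AniStmt := H21.ani (H27.ind H26.des)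

theorem trd_all (der : DerStmt) (rn1 : Rn1Stmt) : TrdStmt :=
  H58.trd H22.tay (H25.jac H22.tay) der (H42.rnk (H86.ptn (H25.jac H22.tay)) rn1) H31.mat

theorem fld_all : FldStmt := H81.fld (H21.fla H22.cop H95.ain) H92.flb

theorem rat_all (exp : ExpStmt) (der : DerStmt) (rn1 : Rn1Stmt) : RatStmt :=
  H13.rat ani_all exp (H45.pts ani_all exp (trd_all der rn1)) fld_all

theorem p2_all (exp : ExpStmt) : P2Stmt := H58.p2 exp H3.sup

theorem spd_all (exp : ExpStmt) (val : ValStmt) : SpdStmt :=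
  spd ani_all val (H60.spp H17.trr) (H44.scl exp)

/-- the closed class in terms of `Sec` -/
def HasSec (E : Type) [Field E] (n : ℕ) (f : MvPolynomial (Fin (n + 2)) E) : Prop :=
  ∃ (a b : ℕ) (x : Fin (n + 2) → FT E n) (u v : Cl E n), a + b = n ∧ Sec E n a b f x u v ∧
    ∀ c : Fin (n + 2) → E, DimLe2 E x (hyp E n c x) n

/-- the class of the hand-in -/
def Cls2 (E : Type) [Field E] (n : ℕ) (f : MvPolynomial (Fin (n + 2)) E) : Prop :=
  ∃ (x : Fin (n + 2) → FT E n) (u v A : Cl E n) (a b : ℕ), x ≠ 0 ∧ aeval x f = 0 ∧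
    (∀ s : Cl E n, aeval (pt E n x s) f = A * (s - u) * (s - v)) ∧ a + b = n ∧
    DimLe E (pt E n x u) a ∧ DimLe E (pt E n x v) b ∧
    (u ≠ v ∨ ∀ c : Fin (n + 2) → E, DimLe2 E x (hyp E n c x) n)

theorem quad_ext {K : Type} [Field K] [Infinite K] {a0 a1 a2 b0 b1 b2 : K}
    (h : ∀ s : K, a0 + s * a1 + s ^ 2 * a2 = b0 + s * b1 + s ^ 2 * b2) :
    a0 = b0 ∧ a1 = b1 ∧ a2 = b2 := by
  have h1 : (Polynomial.C a0 + Polynomial.X * Polynomial.C a1 +
      Polynomial.X ^ 2 * Polynomial.C a2 : Polynomial K) =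
      Polynomial.C b0 + Polynomial.X * Polynomial.C b1 + Polynomial.X ^ 2 * Polynomial.C b2 := by
    apply Polynomial.funext
    intro s
    simp only [Polynomial.eval_add, Polynomial.eval_mul, Polynomial.eval_pow, Polynomial.eval_X,
      Polynomial.eval_C]
    exact h s
  have hc : ∀ i, (Polynomial.C a0 + Polynomial.X * Polynomial.C a1 +
      Polynomial.X ^ 2 * Polynomial.C a2 : Polynomial K).coeff i =
      (Polynomial.C b0 + Polynomial.X * Polynomial.C b1 +
        Polynomial.X ^ 2 * Polynomial.C b2 : Polynomial K).coeff i := fun i => by rw [h1]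
  have e0 := hc 0
  have e1 := hc 1
  have e2 := hc 2
  simp [Polynomial.coeff_C, Polynomial.coeff_X, Polynomial.coeff_X_pow] at e0 e1 e2
  exact ⟨e0, e1, e2⟩

theorem exp_pt (exp : ExpStmt) {E : Type} [Field E] {n : ℕ} {f : MvPolynomial (Fin (n + 2)) E}
    (h3 : f.IsHomogeneous 3) {x : Fin (n + 2) → FT E n} (h0 : aeval x f = 0) (s : Cl E n) :
    aeval (pt E n x s) f = algebraMap (FT E n) (Cl E n) (aeval (gen E n) f) +
      s * algebraMap (FT E n) (Cl E n) (dd f (gen E n) x) +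
      s ^ 2 * algebraMap (FT E n) (Cl E n) (dd f x (gen E n)) := by
  have haev : ∀ y : Fin (n + 2) → FT E n, ∀ g : MvPolynomial (Fin (n + 2)) E,
      aeval (fun i => algebraMap (FT E n) (Cl E n) (y i)) g =
        algebraMap (FT E n) (Cl E n) (aeval y g) := by
    intro y g
    exact aeval_algebraMap_apply (Cl E n) y g
  have hdd : ∀ y z : Fin (n + 2) → FT E n,
      dd f (fun i => algebraMap (FT E n) (Cl E n) (y i))
        (fun i => algebraMap (FT E n) (Cl E n) (z i)) =
        algebraMap (FT E n) (Cl E n) (dd f y z) := by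
    intro y z
    unfold dd
    rw [map_sum]
    apply Finset.sum_congr rfl
    intro i _
    rw [map_mul, haev]
  have h := (exp E (Cl E n) (Fin (n + 2)) f h3
    (fun i => algebraMap (FT E n) (Cl E n) (gen E n i))
    (fun i => algebraMap (FT E n) (Cl E n) (x i)) s).1
  rw [haev, haev, hdd, hdd, h0, map_zero, mul_zero, add_zero] at h
  exact h

theorem cls_iff (exp : ExpStmt) {E : Type} [Field E] {n : ℕ}
    {f : MvPolynomial (Fin (n + 2)) E} (h3 : f.IsHomogeneous 3) (hf : f ≠ 0) :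
    Cls2 E n f ↔ HasSec E n f := by
  constructor
  · rintro ⟨x, u, v, A, a, b, hx, h0, hA, hab, hda, hdb, hor⟩
    have h1 : ∀ s : Cl E n, algebraMap (FT E n) (Cl E n) (aeval (gen E n) f) +
        s * algebraMap (FT E n) (Cl E n) (dd f (gen E n) x) +
        s ^ 2 * algebraMap (FT E n) (Cl E n) (dd f x (gen E n)) =
        A * (u * v) + s * (-A * (u + v)) + s ^ 2 * A := by
      intro s
      rw [← exp_pt exp h3 h0, hA]
      ring
    obtain ⟨e0, e1, e2⟩ := quad_ext h1
    have hsec : Sec E n a b f x u v := ⟨hx, h0, by rw [e1, e2], by rw [e0, e2], hda, hdb⟩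
    refine ⟨a, b, x, u, v, hab, hsec, ?_⟩
    rcases hor with h | h
    · exact fun c => p2_all exp E n a b f x u v c hab h3 hf hsec h
    · exact h
  · rintro ⟨a, b, x, u, v, hab, h, hd⟩
    refine ⟨x, u, v, algebraMap (FT E n) (Cl E n) (dd f x (gen E n)), a, b, h.ne, h.zero, ?_, hab,
      h.dimu, h.dimv, Or.inr hd⟩
    intro s
    rw [exp_pt exp h3 h.zero, h.sum, h.prod]
    ring

theorem of_odd (exp : ExpStmt) {E : Type} [Field E] [IsAlgClosed E] {n : ℕ}
    {f : MvPolynomial (Fin (n + 2)) E} (h3 : f.IsHomogeneous 3) (hf : Nonsing E n f)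
    (h : H57.HasOddSection E n f) : HasSec E n f := by
  obtain ⟨a, b, x, u, v, hab, hsec, huv⟩ := H57.ods ani_all exp E n f h3 hf h
  exact ⟨a, b, x, u, v, hab, hsec,
    fun c => p2_all exp E n a b f x u v c hab h3 hf.ne_zero hsec huv⟩

/-- the main theorem over a valuation ring of an algebraically closed field -/
theorem core (exp : ExpStmt) (der : DerStmt) (rn1 : Rn1Stmt) (val : ValStmt) {E F' : Type}
    [Field E] [IsAlgClosed E] [Field F'] [IsAlgClosed F'] (V : ValuationSubring E)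
    (π : V →+* F') (n : ℕ) (f : MvPolynomial (Fin (n + 2)) V) (hπ : Function.Surjective π)
    (hu : ∀ x, π x ≠ 0 → IsUnit x) (h3 : f.IsHomogeneous 3) (hs : Nonsing F' n (map π f))
    (hg : Nonsing E n (map V.subtype f)) (h : HasSec E n (map V.subtype f)) :
    HasSec F' n (map π f) ∧ IsRat E n (map V.subtype f) ∧ IsRat F' n (map π f) := by
  obtain ⟨a, b, x, u, v, hab, hsec, hd⟩ := h
  have hr := rat_all exp der rn1
  obtain ⟨x', u', v', hsec', hd'⟩ :=
    spd_all exp val E F' V π n a b f x u v hπ hu h3 hs hsec hd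
  exact ⟨⟨a, b, x', u', v', hab, hsec', hd'⟩,
    hr _ n a b _ x u v hab (h3.map V.subtype) hg hsec hd,
    hr _ n a b _ x' u' v' hab (h3.map π) hs hsec' hd'⟩

end Pool.Agent.SCT.H79
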