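import Pool.Agent.Helper64_CUB.Str
import Pool.Agent.Helper64_CUB.Val

/-!
# Specialisation of rationality for cubic hypersurfaces with a linear subspace and a multisection
# of odd degree of the bundle of residual quadrics

`f` is a form of degree three in `n + 2` variables, the cubic hypersurface `f = 0` in the projective
space of dimension `n + 1` has dimension `n`.
-/

set_option autoImplicit false
set_option linter.unusedSectionVars false

namespace Pool.Agent.Results.MP_02d4f5_ag.OddSectionSpecialisation

open MvPolynomial Pool.Agent.CUB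

/-- the field `E(T_0, ..., T_{n+1})` of the rational functions of a point `T` of the affine space of
dimension `n + 2` over `E` -/
abbrev FT (E : Type) [Field E] (n : ℕ) : Type := FractionRing (MvPolynomial (Fin (n + 2)) E)

/-- the hypersurface `f = 0` is nonsingular: at every point with coordinates in `E` a partial
derivative of `f` does not vanish (`E` will be algebraically closed) -/
def Nonsingular (E : Type) [Field E] (n : ℕ) (f : MvPolynomial (Fin (n + 2)) E) : Prop :=
  ∀ x : Fin (n + 2) → E, x ≠ 0 → eval x f = 0 → ∃ i, eval x (pderiv i f) ≠ 0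

/-- the hypersurface `f = 0` of dimension `n` is rational: there is a point `x` of it with
coordinates in `E(y_1, ..., y_n)` whose ratios of coordinates generate `E(y_1, ..., y_n)` over `E`,
that is a birational map from the projective space of dimension `n` -/
def IsRational (E : Type) [Field E] (n : ℕ) (f : MvPolynomial (Fin (n + 2)) E) : Prop :=
  ∃ x : Fin (n + 2) → FractionRing (MvPolynomial (Fin n) E),
    x ≠ 0 ∧ aeval x f = 0 ∧ IntermediateField.adjoin E {z | ∃ i j, z = x i / x j} = ⊤

/-- the hypersurface `f = 0` contains a linear subspace `P(L)` such that, over an extension `F` of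
odd degree of the field `E(T)`, the linear span of `P(L)` and of the generic point `T` contains a
point `a + t T`, `a` in `F ⊗ L`, `t ≠ 0`, of the hypersurface outside of `P(L)`: the bundle of the
residual quadrics in the linear spaces which contain `P(L)` as a hyperplane has a multisection of
odd degree -/
def HasOddSection (E : Type) [Field E] (n : ℕ) (f : MvPolynomial (Fin (n + 2)) E) : Prop :=
  ∃ L : Submodule E (Fin (n + 2) → E), L ≠ ⊥ ∧ (∀ x ∈ L, eval x f = 0) ∧
    ∃ (F : Type) (_ : Field F) (_ : Algebra (FT E n) F), Odd (Module.finrank (FT E n) F) ∧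
      ∃ (a : Fin (n + 2) → F) (t : F), t ≠ 0 ∧
        a ∈ Submodule.span F
          {z | ∃ x ∈ L, z = fun i => algebraMap (FT E n) F (algebraMap E (FT E n) (x i))} ∧
        eval₂ ((algebraMap (FT E n) F).comp (algebraMap E (FT E n)))
          (fun i => a i + t * algebraMap (FT E n) F
            (algebraMap (MvPolynomial (Fin (n + 2)) E) (FT E n) (X i))) f = 0

variable {E : Type} [Field E] {n : ℕ}

/-- a form which vanishes on `L` vanishes on the vectors of `F ⊗ L` -/
theorem vanish_span [Infinite E] {f : MvPolynomial (Fin (n + 2)) E}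
    {L : Submodule E (Fin (n + 2) → E)} (hL : ∀ x ∈ L, eval x f = 0) {F : Type} [Field F]
    (ψ : E →+* F) {a : Fin (n + 2) → F}
    (ha : a ∈ Submodule.span F {z | ∃ x ∈ L, z = fun i => ψ (x i)}) : eval₂ ψ a f = 0 := by
  obtain ⟨r, hr⟩ : ∃ r, r = Module.finrank E L := ⟨_, rfl⟩
  set b : Module.Basis (Fin r) E L := Module.finBasisOfFinrankEq E L hr.symm with hb
  obtain ⟨γ, hγ⟩ : ∃ γ : Fin r → F, a = fun i => ∑ j, γ j *
      (ψ ((b j : Fin (n + 2) → E) i)) := by
    induction ha using Submodule.span_induction with
    | mem z hz =>
      obtain ⟨x, hx, rfl⟩ := hz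
      refine ⟨fun j => ψ (b.repr ⟨x, hx⟩ j), ?_⟩
      funext i
      have h1 := b.sum_repr ⟨x, hx⟩
      have h2 : x i = ∑ j, b.repr ⟨x, hx⟩ j * (b j : Fin (n + 2) → E) i := by
        have h3 := congrArg (fun y : L => (y : Fin (n + 2) → E) i) h1
        dsimp only at h3
        rw [← h3, Submodule.coe_sum, Finset.sum_apply]
        rfl
      conv_lhs => rw [h2]
      rw [map_sum]
      apply Finset.sum_congr rfl
      intro j _
      rw [map_mul]
    | zero => exact ⟨0, by funext i; simp⟩
    | add x y _ _ hx hy =>
      obtain ⟨γ, hγ⟩ := hx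
      obtain ⟨γ', hγ'⟩ := hy
      refine ⟨γ + γ', ?_⟩
      rw [hγ, hγ']
      funext i
      simp only [Pi.add_apply, add_mul, Finset.sum_add_distrib]
    | smul c x _ hx =>
      obtain ⟨γ, hγ⟩ := hx
      refine ⟨c • γ, ?_⟩
      rw [hγ]
      funext i
      simp only [Pi.smul_apply, smul_eq_mul, Finset.mul_sum, mul_assoc]
  have h0 : eval₂ (C : E →+* MvPolynomial (Fin r) E)
      (fun i => ∑ j, X j * C ((b j : Fin (n + 2) → E) i)) f = 0 := by
    apply MvPolynomial.funext
    intro y
    rw [map_zero, hom_eval₂]
    have h4 : (eval y).comp (C : E →+* MvPolynomial (Fin r) E) = RingHom.id E := by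
      ext c; simp
    rw [h4, eval₂_id]
    have h5 : (fun i => eval y (∑ j, X j * C ((b j : Fin (n + 2) → E) i))) =
        ∑ j, y j • (b j : Fin (n + 2) → E) := by
      funext i
      rw [map_sum, Finset.sum_apply]
      simp only [map_mul, eval_X, eval_C]
      rfl
    rw [h5]
    exact hL _ (L.sum_mem (fun j _ => L.smul_mem _ (b j).2))
  have h1 := congrArg (eval₂Hom ψ γ) h0
  rw [map_zero, hom_eval₂] at h1
  have h4 : (eval₂Hom ψ γ).comp (C : E →+* MvPolynomial (Fin r) E) = ψ := by
    ext c; simp
  rw [h4] at h1
  rw [hγ, ← h1]
  congr 1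
  funext i
  rw [map_sum]
  apply Finset.sum_congr rfl
  intro j _
  rw [map_mul, coe_eval₂Hom, eval₂_X, eval₂_C]

theorem class_of [Infinite E] {f : MvPolynomial (Fin (n + 2)) E} (h : HasOddSection E n f) :
    H64.InClass E n f := by
  obtain ⟨L, hL0, hL, F, _, _, hodd, a, t, ht, ha, hf⟩ := h
  refine ⟨L, hL0, hL, F, inferInstance, inferInstance, hodd, a, t, Or.inr ht, ha, ?_⟩
  have h1 := H64.mul_DD (map ((algebraMap (FT E n) F).comp (algebraMap E (FT E n))) f) a
    (fun i => algebraMap (FT E n) F (algebraMap (MvPolynomial (Fin (n + 2)) E) _ (X i))) t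
  rw [eval_map, eval_map, hf,
    vanish_span hL ((algebraMap (FT E n) F).comp (algebraMap E (FT E n))) ha, sub_zero] at h1
  exact (mul_eq_zero.1 h1).resolve_left ht

theorem of_sectW [Infinite E] {f : MvPolynomial (Fin (n + 2)) E} (h3 : f.IsHomogeneous 3)
    (hf : H64.Smooth f) (h : H64.SectW n f) : HasOddSection E n f := by
  obtain ⟨L, hL0, hL, a, t, ht, ha, h⟩ := H64.strong h3 hf h
  refine ⟨L, hL0, hL, FT E n, inferInstance, Algebra.id _, ?_, a, t, ht, ha, h⟩
  rw [Module.finrank_self]
  exact odd_one

/-- **Theorem.** Let `R` be a valuation ring (for example a discrete valuation ring) with fraction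
field `K` and residue field `k` of any characteristic, and `f` a form of degree three over `R`
whose special fibre is nonsingular over the algebraic closure of `k`.  If the generic fibre over
the algebraic closure of `K` contains a linear subspace with an odd degree multisection of the
bundle of the residual quadrics, then it is nonsingular, the same holds for the special fibre, and
both fibres are rational. -/
theorem result (R : Type) [CommRing R] [IsDomain R] [ValuationRing R] (K : Type) [Field K]
    [Algebra R K] [IsFractionRing R K] (n : ℕ) (f : MvPolynomial (Fin (n + 2)) R)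
    (h3 : f.IsHomogeneous 3)
    (hs : Nonsingular (AlgebraicClosure (IsLocalRing.ResidueField R)) n
      (map ((algebraMap (IsLocalRing.ResidueField R)
        (AlgebraicClosure (IsLocalRing.ResidueField R))).comp (IsLocalRing.residue R)) f))
    (hK : HasOddSection (AlgebraicClosure K) n
      (map ((algebraMap K (AlgebraicClosure K)).comp (algebraMap R K)) f)) :
    Nonsingular (AlgebraicClosure K) n
        (map ((algebraMap K (AlgebraicClosure K)).comp (algebraMap R K)) f) ∧
      HasOddSection (AlgebraicClosure (IsLocalRing.ResidueField R)) n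
        (map ((algebraMap (IsLocalRing.ResidueField R)
          (AlgebraicClosure (IsLocalRing.ResidueField R))).comp (IsLocalRing.residue R)) f) ∧
      IsRational (AlgebraicClosure K) n
        (map ((algebraMap K (AlgebraicClosure K)).comp (algebraMap R K)) f) ∧
      IsRational (AlgebraicClosure (IsLocalRing.ResidueField R)) n
        (map ((algebraMap (IsLocalRing.ResidueField R)
          (AlgebraicClosure (IsLocalRing.ResidueField R))).comp (IsLocalRing.residue R)) f) := by
  have hRE : (algebraMap K (AlgebraicClosure K)).comp (algebraMap R K) =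
      algebraMap R (AlgebraicClosure K) :=
    (IsScalarTower.algebraMap_eq R K (AlgebraicClosure K)).symm
  have hinj : Function.Injective (algebraMap R (AlgebraicClosure K)) := by
    rw [← hRE]
    exact (algebraMap K (AlgebraicClosure K)).injective.comp (IsFractionRing.injective R K)
  have halg : ∀ x : AlgebraicClosure K, IsAlgebraic R x := fun x =>
    (IsFractionRing.isAlgebraic_iff R K (AlgebraicClosure K)).2
      (Algebra.IsAlgebraic.isAlgebraic x)
  obtain ⟨V, φ, π, hφ, hπ, hu, hπφ⟩ := H64.val_thm R (AlgebraicClosure K) hinj halg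
  have hgen : map ((algebraMap K (AlgebraicClosure K)).comp (algebraMap R K)) f =
      map V.subtype (map φ f) := by
    rw [map_map, hRE]
    congr 1
    congr 1
    ext r
    exact (hφ r).symm
  have hsp : map ((algebraMap (IsLocalRing.ResidueField R)
      (AlgebraicClosure (IsLocalRing.ResidueField R))).comp (IsLocalRing.residue R)) f =
      map π (map φ f) := by
    rw [map_map, hπφ]
  rw [hgen] at hK ⊢
  rw [hsp] at hs ⊢
  have h3V : (map φ f).IsHomogeneous 3 := h3.map φ
  have hsm : H64.Smooth (map V.subtype (map φ f)) := H64.smooth_gen h3V π hs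
  have hW : H64.SectW n (map V.subtype (map φ f)) :=
    H64.class_sectW (h3V.map V.subtype) (class_of hK)
  have hW' : H64.SectW n (map π (map φ f)) := H64.red_sect h3V π hπ hW
  exact ⟨hsm, of_sectW (h3V.map π) hs hW', H64.field_thm (h3V.map V.subtype) hsm hW,
    H64.field_thm (h3V.map π) hs hW'⟩

end Pool.Agent.Results.MP_02d4f5_ag.OddSectionSpecialisation
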