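import Pool.Agent.SCT.StmtsB

/-!
# Row RN1: differentiation of the equations along the line
-/

set_option autoImplicit false

namespace Pool.Agent.SCT.H79

open MvPolynomial

section

variable {k K Ω : Type} [Field k] [Field K] [Field Ω] [Algebra k K] [Algebra K Ω] [Algebra k Ω]
  [IsScalarTower k K Ω]

/-- the homomorphism `z ↦ z + ε D z` -/
noncomputable def dual (D : Derivation k K K) : K →ₐ[k] TrivSqZeroExt Ω Ω where
  toFun z := TrivSqZeroExt.inl (algebraMap K Ω z) + TrivSqZeroExt.inr (algebraMap K Ω (D z))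
  map_one' := by
    rw [Derivation.map_one_eq_zero, map_zero, map_one, TrivSqZeroExt.inr_zero, add_zero]
    rfl
  map_mul' x y := by
    apply TrivSqZeroExt.ext
    · simp only [TrivSqZeroExt.fst_add, TrivSqZeroExt.fst_mul, TrivSqZeroExt.fst_inl,
        TrivSqZeroExt.fst_inr, map_mul, add_zero]
    · simp only [TrivSqZeroExt.snd_add, TrivSqZeroExt.snd_mul, TrivSqZeroExt.snd_inl,
        TrivSqZeroExt.snd_inr, TrivSqZeroExt.fst_add, TrivSqZeroExt.fst_inl,
        TrivSqZeroExt.fst_inr, add_zero, zero_add, Derivation.leibniz, map_add, smul_eq_mul,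
        map_mul, MulOpposite.smul_eq_mul_unop, MulOpposite.unop_op]
      ring
  map_zero' := by
    rw [map_zero D, map_zero (algebraMap K Ω), TrivSqZeroExt.inr_zero, add_zero]
    rfl
  map_add' x y := by
    rw [map_add, map_add, map_add, TrivSqZeroExt.inl_add, TrivSqZeroExt.inr_add]
    abel
  commutes' c := by
    rw [Derivation.map_algebraMap, map_zero, TrivSqZeroExt.inr_zero, add_zero,
      ← IsScalarTower.algebraMap_apply k K Ω]
    rfl

theorem fst_dual (D : Derivation k K K) (z : K) :
    (dual (Ω := Ω) D z).fst = algebraMap K Ω z := by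
  change (TrivSqZeroExt.inl (algebraMap K Ω z) + TrivSqZeroExt.inr (algebraMap K Ω (D z)) :
    TrivSqZeroExt Ω Ω).fst = _
  rw [TrivSqZeroExt.fst_add, TrivSqZeroExt.fst_inl, TrivSqZeroExt.fst_inr, add_zero]

theorem snd_dual (D : Derivation k K K) (z : K) :
    (dual (Ω := Ω) D z).snd = algebraMap K Ω (D z) := by
  change (TrivSqZeroExt.inl (algebraMap K Ω z) + TrivSqZeroExt.inr (algebraMap K Ω (D z)) :
    TrivSqZeroExt Ω Ω).snd = _
  rw [TrivSqZeroExt.snd_add, TrivSqZeroExt.snd_inl, TrivSqZeroExt.snd_inr, zero_add]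

omit [IsScalarTower k K Ω] in
/-- the main step -/
theorem main_step (tay : TayStmt) (n : ℕ) (T w : Fin (n + 2) → K) (s : Ω)
    (φ : K →ₐ[k] TrivSqZeroExt Ω Ω) (hφ : ∀ z, (φ z).fst = algebraMap K Ω z)
    (σ : TrivSqZeroExt Ω Ω) (hσ : σ.fst = s) (q H : Polynomial K) (hq : Polynomial.aeval s q = 0)
    (g : MvPolynomial (Fin (n + 2)) k)
    (hg : aeval (fun i => Polynomial.C (T i) + Polynomial.X * Polynomial.C (w i)) g = q * H) :
    dd g (fun i => algebraMap K Ω (T i) + s * algebraMap K Ω (w i))
      (fun i => (φ (T i) + σ * φ (w i)).snd) =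
      (Polynomial.eval₂ φ.toRingHom σ q).snd * Polynomial.aeval s H := by
  have hf : ∀ P : Polynomial K, (Polynomial.eval₂ φ.toRingHom σ P).fst = Polynomial.aeval s P := by
    intro P
    have h1 := Polynomial.hom_eval₂ P φ.toRingHom (TrivSqZeroExt.fstHom k Ω Ω).toRingHom σ
    have h2 : (TrivSqZeroExt.fstHom k Ω Ω).toRingHom.comp φ.toRingHom = algebraMap K Ω :=
      RingHom.ext hφ
    rw [h2] at h1
    have h3 : (TrivSqZeroExt.fstHom k Ω Ω).toRingHom σ = s := hσ
    rw [h3] at h1
    exact h1
  have h4 : Polynomial.eval₂ φ.toRingHom σ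
      (aeval (fun i => Polynomial.C (T i) + Polynomial.X * Polynomial.C (w i)) g) =
      aeval (fun i => φ (T i) + σ * φ (w i)) g := by
    have h5 : ((Polynomial.eval₂RingHom φ.toRingHom σ).comp
        (aeval (R := k) (fun i => Polynomial.C (T i) + Polynomial.X * Polynomial.C (w i) :
          Fin (n + 2) → Polynomial K)).toRingHom) =
        (aeval (R := k) (fun i => φ (T i) + σ * φ (w i))).toRingHom := by
      apply MvPolynomial.ringHom_ext
      · intro c
        change Polynomial.eval₂ φ.toRingHom σ (aeval _ (C c)) = aeval _ (C c)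
        rw [aeval_C, aeval_C, Polynomial.algebraMap_apply, Polynomial.eval₂_C]
        exact φ.commutes c
      · intro i
        change Polynomial.eval₂ φ.toRingHom σ (aeval _ (X i)) = aeval _ (X i)
        rw [aeval_X, aeval_X, Polynomial.eval₂_add,
          Polynomial.eval₂_mul_noncomm _ _ fun _ => Commute.all _ _, Polynomial.eval₂_C,
          Polynomial.eval₂_C, Polynomial.eval₂_X]
        rfl
    exact congrArg (fun r : MvPolynomial (Fin (n + 2)) k →+* TrivSqZeroExt Ω Ω => r g) h5
  have h6 : (fun i => φ (T i) + σ * φ (w i)) = fun i =>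
      (TrivSqZeroExt.inl (algebraMap K Ω (T i) + s * algebraMap K Ω (w i)) +
        TrivSqZeroExt.inr ((φ (T i) + σ * φ (w i)).snd) : TrivSqZeroExt Ω Ω) := by
    funext i
    apply TrivSqZeroExt.ext
    · rw [TrivSqZeroExt.fst_add, TrivSqZeroExt.fst_mul, hφ, hφ, hσ]
      simp
    · simp
  have h7 := (tay k Ω (Fin (n + 2)) (fun i => algebraMap K Ω (T i) + s * algebraMap K Ω (w i))
    (fun i => (φ (T i) + σ * φ (w i)).snd) g).1
  rw [← h6, ← h4, hg, Polynomial.eval₂_mul_noncomm _ _ fun _ => Commute.all _ _] at h7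
  · have h8 := congrArg TrivSqZeroExt.snd h7
    rw [TrivSqZeroExt.snd_mul, hf q, hq, hf H, TrivSqZeroExt.snd_add, TrivSqZeroExt.snd_inl,
      TrivSqZeroExt.snd_inr, zero_add, zero_smul, zero_add] at h8
    rw [← h8, op_smul_eq_mul]

end

theorem rn1 (tay : TayStmt) : Rn1Stmt := by
  intro k _ n D hD w s
  have hs : IsIntegral (FT k n) s := Algebra.IsIntegral.isIntegral s
  have hq : Polynomial.aeval s (minpoly (FT k n) s) = 0 := minpoly.aeval _ _
  refine ⟨fun j => (Polynomial.eval₂ (dual (k := k) (Ω := Cl k n) (D j)).toRingHom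
      (TrivSqZeroExt.inl s) (minpoly (FT k n) s)).snd,
    (Polynomial.eval₂ (dual (k := k) (K := FT k n) (Ω := Cl k n) 0).toRingHom
      (TrivSqZeroExt.inl s + TrivSqZeroExt.inr 1) (minpoly (FT k n) s)).snd, fun g hg => ?_⟩
  have h1 : Polynomial.aeval s (aeval (fun i => Polynomial.C (gen k n i) +
      Polynomial.X * Polynomial.C (w i)) g) = 0 := by
    rw [← hg]
    have h2 : (Polynomial.aeval (R := FT k n) s).toRingHom.comp
        (aeval (R := k) (fun i => Polynomial.C (gen k n i) + Polynomial.X * Polynomial.C (w i) :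
          Fin (n + 2) → Polynomial (FT k n))).toRingHom = (aeval (R := k) (pt k n w s)).toRingHom := by
      apply MvPolynomial.ringHom_ext
      · intro c
        change Polynomial.aeval s (aeval _ (C c)) = aeval _ (C c)
        rw [aeval_C, aeval_C, Polynomial.algebraMap_apply, Polynomial.aeval_C]
        exact (IsScalarTower.algebraMap_apply k (FT k n) (Cl k n) c).symm
      · intro i
        change Polynomial.aeval s (aeval _ (X i)) = aeval _ (X i)
        rw [aeval_X, aeval_X, map_add, map_mul, Polynomial.aeval_C, Polynomial.aeval_X,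
          Polynomial.aeval_C]
        rfl
    exact congrArg (fun r : MvPolynomial (Fin (n + 2)) k →+* Cl k n => r g) h2
  obtain ⟨H, hH⟩ := minpoly.dvd (FT k n) s h1
  refine ⟨Polynomial.aeval s H, fun j => ?_, ?_⟩
  · have h3 := main_step tay n (gen k n) w s (dual (k := k) (Ω := Cl k n) (D j)) (fst_dual (D j))
      (TrivSqZeroExt.inl s) (TrivSqZeroExt.fst_inl _ _) (minpoly (FT k n) s) H hq g hH
    rw [← h3]
    have h4 : vec k n D w s j = fun i => (dual (k := k) (Ω := Cl k n) (D j) (gen k n i) +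
        TrivSqZeroExt.inl s * dual (k := k) (Ω := Cl k n) (D j) (w i)).snd := by
      funext i
      rw [TrivSqZeroExt.snd_add, TrivSqZeroExt.snd_mul, snd_dual, snd_dual,
        TrivSqZeroExt.fst_inl, TrivSqZeroExt.snd_inl, smul_zero, add_zero, hD, smul_eq_mul, vec]
      by_cases hij : i = j
      · rw [if_pos hij, if_pos hij, map_one]
      · rw [if_neg hij, if_neg hij, map_zero]
    rw [h4]
    rfl
  · have h3 := main_step tay n (gen k n) w s (dual (k := k) (K := FT k n) (Ω := Cl k n) 0)
      (fst_dual 0) (TrivSqZeroExt.inl s + TrivSqZeroExt.inr 1)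
      (by rw [TrivSqZeroExt.fst_add, TrivSqZeroExt.fst_inl, TrivSqZeroExt.fst_inr, add_zero])
      (minpoly (FT k n) s) H hq g hH
    rw [← h3]
    have h4 : (fun i => algebraMap (FT k n) (Cl k n) (w i)) = fun i =>
        (dual (k := k) (K := FT k n) (Ω := Cl k n) 0 (gen k n i) +
        (TrivSqZeroExt.inl s + TrivSqZeroExt.inr 1) *
          dual (k := k) (K := FT k n) (Ω := Cl k n) 0 (w i)).snd := by
      funext i
      rw [TrivSqZeroExt.snd_add, TrivSqZeroExt.snd_mul, snd_dual, snd_dual, fst_dual,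
        Derivation.zero_apply, Derivation.zero_apply, map_zero, smul_zero, zero_add, zero_add,
        op_smul_eq_mul, TrivSqZeroExt.snd_add, TrivSqZeroExt.snd_inl, TrivSqZeroExt.snd_inr,
        zero_add, one_mul]
    rw [h4]
    rfl

end Pool.Agent.SCT.H79
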