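import Pool.Agent.Helper79_SCT.Fin
import Pool.Agent.Helper79_SCT.EXP
import Pool.Agent.Helper79_SCT.RN1
import Pool.Agent.Helper64_SCT.VAL
import Pool.Agent.Helper19_SCT.DER
import Pool.Agent.Helper97_SCT.PDT
import Pool.Agent.Helper49_SCT.NSX
import Pool.Agent.Helper15_SCT.EVK
import Pool.Agent.Helper77_SCT.LSX
import Pool.Agent.Helper25_SCT.ADJ
import Pool.Agent.Helper62_SCT.CRK
import Pool.Agent.Helper42_SCT.HYD
import Pool.Agent.Helper30_SCT.HSD
import Pool.Agent.Helper88_SCT.GTD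
import Pool.Agent.Helper75_SCT.CNT
import Pool.Agent.Helper65_SCT.GRK
import Pool.Agent.Helper71_SCT.CXI
import Pool.Agent.Helper13_SCT.DPF
import Pool.Agent.Helper72_SCT.PFS

/-!
# Pfaffian cubic fourfolds are in the class (MP_02d4f5_ag, squad SCT, block P)
-/

set_option autoImplicit false

namespace Pool.Agent.SCT.H79

open MvPolynomial

theorem crk_all : CrkStmt := H62.crk exp H97.pdt H49.nsx

theorem grk_all : GrkStmt := H65.grk H97.pdt H15.evk H25.adj crk_all H30.hsd H88.gtd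

theorem pfs_all : PfsStmt :=
  H72.pfs ani_all exp H97.pdt H77.lsx H25.adj H42.hyd (H71.cxi H97.pdt grk_all)
    (H13.dpf H97.pdt H15.evk H77.lsx H25.adj crk_all H42.hyd H75.cnt)

theorem of_pf {E : Type} [Field E] [IsAlgClosed E] {f : MvPolynomial (Fin (4 + 2)) E}
    (h3 : f.IsHomogeneous 3) (hf : Nonsing E 4 f)
    {m : Fin (4 + 2) → Matrix (Fin (4 + 2)) (Fin (4 + 2)) E} {c : E} (h : Pf E f m c) :
    HasSec E 4 f := by
  obtain ⟨x, u, w, hsec, hd⟩ := pfs_all E f m c h3 hf h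
  exact ⟨2, 2, x, u, w, rfl, hsec, hd⟩

end Pool.Agent.SCT.H79
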