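import Pool.Agent.Helper79_SCT.ASM

/-!
# The two further points are different if the characteristic is not two
-/

set_option autoImplicit false

namespace Pool.Agent.SCT.H79

open MvPolynomial

theorem two_ne (ani : AniStmt) (exp : ExpStmt) {k : Type} [Field k] [IsAlgClosed k] {n a b : ℕ}
    {f : MvPolynomial (Fin (n + 2)) k} (h3 : f.IsHomogeneous 3) (hf : Nonsing k n f)
    {x : Fin (n + 2) → FT k n} {u v : Cl k n} (h : Sec k n a b f x u v) (h2 : (2 : k) ≠ 0) :
    u ≠ v := by
  rintro rfl
  have h2' : (2 : FT k n) ≠ 0 := by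
    have := (map_ne_zero (algebraMap k (FT k n))).2 h2
    rwa [map_ofNat] at this
  have ha2 : dd f x (gen k n) ≠ 0 := ani k n f h3 hf x h.ne h.zero
  set A2 := dd f x (gen k n) with hA2
  set A1 := dd f (gen k n) x with hA1
  set A0 := aeval (gen k n) f with hA0
  set z : FT k n := -A1 / (2 * A2) with hz
  have hinj := (algebraMap (FT k n) (Cl k n)).injective
  have hA2' : algebraMap (FT k n) (Cl k n) A2 ≠ 0 := (map_ne_zero _).2 ha2
  have h2c : (2 : Cl k n) ≠ 0 := by
    have := (map_ne_zero (algebraMap (FT k n) (Cl k n))).2 h2'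
    rwa [map_ofNat] at this
  have hu : u = algebraMap (FT k n) (Cl k n) z := by
    rw [hz, map_div₀, map_neg, map_mul, map_ofNat, h.sum]
    field_simp
    ring
  have hprod := h.prod
  rw [hu] at hprod
  have e0 : A0 = A2 * (z * z) := by
    apply hinj
    rw [map_mul, map_mul]
    exact hprod
  have e1 : A1 = -(2 * A2 * z) := by
    rw [hz]
    field_simp
  obtain ⟨E1, E2, _, _, _⟩ := exp k (FT k n) (Fin (n + 2)) f h3 (gen k n) x z
  have hp0 : aeval (fun i => gen k n i + z * x i) f = 0 := by
    rw [E1, h.zero, ← hA0, ← hA1, ← hA2, e0, e1]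
    ring
  have hp1 : dd f (fun i => gen k n i + z * x i) x = 0 := by
    rw [E2, h.zero, ← hA1, ← hA2, e1]
    ring
  have hpp := (exp k (FT k n) (Fin (n + 2)) f h3 (fun i => gen k n i + z * x i) x z).2.2.1
  rw [hp0, mul_zero, dd_add, dd_smul, hp1, mul_zero, add_zero] at hpp
  refine ani k n f h3 hf (fun i => gen k n i + z * x i) ?_ hp0 hpp
  intro h0
  have hT : gen k n = fun i => (-z) * x i := by
    funext i
    have := congrFun h0 i
    simp only [Pi.zero_apply] at this
    linear_combination this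
  apply aeval_gen_ne (k := k) (n := n) hf.ne_zero
  rw [hT]
  rw [(exp k (FT k n) (Fin (n + 2)) f h3 x x (-z)).2.2.2.1, h.zero, mul_zero]

end Pool.Agent.SCT.H79
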